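import Pool.Agent.Results.MP_9d5c58_nt.AvoidingLaw
import Pool.Agent.U513.AP.Sparse

/-!
# Trajectories which avoid the multiples of `3`, near integral polynomials at simultaneous approximations

The starting file bounds the number of the integers in an interval whose trajectory avoids the multiples of `3`. Here: for all points
`α` outside of a set of small Hausdorff dimension, the trajectories of ALL integers near integral polynomials at ALL approximations of
`α` with a large denominator meet the multiples of `3`.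
-/

set_option autoImplicit false

open Finset

namespace Pool.Agent.Results.MP_9d5c58_nt.Approximations

open Pool.Agent.U513.AP
open Pool.Agent.Results.MP_9d5c58_nt.AvoidingLaw (Avoids)

/-- The property that the trajectories of `n` and `-n` contain multiples of `3` holds at approximations outside of exceptional sets of
exponent `0.629`. -/
theorem result : AtApproximations (ι := Unit) 0.629 (fun _ (n : ℕ) => ¬ Avoids n ∧ ¬ Avoids (-(n : ℤ))) := by
  classical
  obtain ⟨C, hC, h, -⟩ := AvoidingLaw.result
  refine sparse_law_int (by norm_num) (fun (_ : Unit) (n : ℤ) => ¬ Avoids n) fun _ ε hε => ?_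
  refine ⟨C * 2 ^ (0.629 : ℝ), 1, fun X hX => ?_⟩
  have hX1 : (1 : ℝ) ≤ X := by exact_mod_cast hX
  have h1 := h (-(X : ℝ)) (2 * X) (by linarith)
  have hfin : {x : ℤ | (-(X : ℝ) ≤ x ∧ (x : ℝ) ≤ -(X : ℝ) + 2 * X) ∧ Avoids x}.Finite := by
    refine (Set.finite_Icc (-(X : ℤ)) X).subset ?_
    rintro n ⟨⟨g1, g2⟩, -⟩
    constructor
    · exact_mod_cast g1
    · have : (n : ℝ) ≤ X := by linarith
      exact_mod_cast this
  have hsub : {n : ℤ | |n| ≤ X ∧ ¬ ¬ Avoids n} ⊆ {x : ℤ | (-(X : ℝ) ≤ x ∧ (x : ℝ) ≤ -(X : ℝ) + 2 * X) ∧ Avoids x} := by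
    rintro n ⟨hn, hs⟩
    have h3 : |(n : ℝ)| ≤ (X : ℝ) := by
      rw [← Int.cast_abs]
      exact_mod_cast hn
    have h4 := abs_le.1 h3
    exact ⟨⟨h4.1, by linarith⟩, not_not.1 hs⟩
  refine (Nat.cast_le.2 (Set.ncard_le_ncard hsub hfin)).trans (h1.trans ?_)
  rw [Real.mul_rpow (by norm_num) (by linarith), ← mul_assoc]
  exact mul_le_mul_of_nonneg_left (Real.rpow_le_rpow_of_exponent_le hX1 (by linarith)) (by positivity)

end Pool.Agent.Results.MP_9d5c58_nt.Approximations
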